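import Pool.Agent.VTP.StmtsT
import Pool.Agent.Helper65_ZOL.UNK
import Pool.Agent.Helper24_ZOL.MGAU
import Pool.Agent.Helper11_ZOL.MPla

/-!
# VTP row TRN: renaming of the crossings of the twist region
-/

set_option autoImplicit false

namespace Pool.Agent.VTP.H31

open Finset Pool.Agent.ZOL

theorem seg_lab (ov : ℕ → Bool) (l : List ℕ) : ∀ (s : Bool), ∀ x ∈ seg ov s l, x.1 ∈ l := by
  induction l with
  | nil =>
    intro s x hx
    simp [seg] at hx
  | cons a l ih =>
    intro s x hx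
    have h1 : x = (a, s, ov a) ∨ x ∈ seg ov (!s) l := List.mem_cons.1 hx
    rcases h1 with h1 | h1
    · rw [h1]
      exact List.mem_cons_self
    · exact List.mem_cons_of_mem _ (ih _ x h1)

theorem tg_lab (ls : List ℕ) (ov : ℕ → Bool) : ∀ x ∈ tg ls ov, x.1 = 0 ∨ x.1 = 1 ∨ x.1 ∈ ls := by
  intro x hx
  unfold tg at hx
  rw [List.mem_append, List.mem_append, List.mem_append] at hx
  rcases hx with ((hx | hx) | hx) | hx
  · rcases List.mem_cons.1 hx with h | h
    · left
      rw [h]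
    · right
      left
      rw [List.mem_singleton.1 h]
  · right
    right
    exact seg_lab _ _ _ x hx
  · rcases List.mem_cons.1 hx with h | h
    · right
      left
      rw [h]
    · left
      rw [List.mem_singleton.1 h]
  · right
    right
    obtain ⟨y, hy, rfl⟩ := List.mem_map.1 hx
    exact seg_lab _ _ _ y (List.mem_reverse.1 hy)

theorem seg_map (f : ℕ → ℕ) (ov ov' : ℕ → Bool) (l : List ℕ) : ∀ (s : Bool),
    (∀ a ∈ l, ov' (f a) = ov a) → seg ov' s (l.map f) = relab f (seg ov s l) := by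
  induction l with
  | nil =>
    intro s _
    rfl
  | cons a l ih =>
    intro s h
    show (f a, s, ov' (f a)) :: seg ov' (!s) (l.map f) = (f a, s, ov a) :: relab f (seg ov (!s) l)
    rw [ih _ (fun b hb => h b (List.mem_cons_of_mem _ hb)), h a List.mem_cons_self]

theorem tg_map (f : ℕ → ℕ) (ov ov' : ℕ → Bool) (ls : List ℕ) (f0 : f 0 = 0) (f1 : f 1 = 1)
    (e0 : ov 0 = ov' 0) (e1 : ov 1 = ov' 1) (h : ∀ a ∈ ls, ov' (f a) = ov a) :
    tg (ls.map f) ov' = relab f (tg ls ov) := by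
  unfold tg
  rw [seg_map f ov ov' ls true h, ← e0, ← e1]
  unfold relab
  rw [List.map_append, List.map_append, List.map_append, List.map_map, ← List.map_reverse,
    List.map_map]
  congr 2
  · simp [f0, f1]
  · simp [f0, f1]

theorem trn (tgg : TggStmt) (tpg : TpgStmt) : TrnStmt := by
  intro w ls ls' ov ov' hw hp hn hn' h0 h1 h0' h1' he hl e0 e1 hm
  have hdia : ∀ (ls : List ℕ) (ov : ℕ → Bool), ls.Nodup → 0 ∉ ls → 1 ∉ ls → Even ls.length →
      IsGauss (mul w (tg ls ov)) ∧ Planar (shadow (mul w (tg ls ov))) := by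
    intro ls ov g1 g2 g3 g4
    have k1 := tgg.1 ls ov g1 g2 g3
    have k2 := tpg.1 ls ov g1 g2 g3 g4
    exact ⟨H24.mgau w _ hw k1, H11.mpla w _ hw k1 hp k2⟩
  obtain ⟨f, f0, f1, hf⟩ : ∃ f : ℕ → ℕ, f 0 = 0 ∧ f 1 = 1 ∧ ls.map f = ls' := by
    refine ⟨fun n => if n = 0 then 0 else if n = 1 then 1 else ls'.getD (ls.idxOf n) 0, rfl, rfl, ?_⟩
    refine List.ext_getElem ?_ ?_
    · rw [List.length_map, hl]
    · intro i hi hi'
      rw [List.length_map] at hi
      have g0 : ls[i] ≠ 0 := fun h => h0 (h ▸ List.getElem_mem hi)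
      have g1 : ls[i] ≠ 1 := fun h => h1 (h ▸ List.getElem_mem hi)
      have g2 : ls.idxOf ls[i] = i := hn.idxOf_getElem i hi
      rw [List.getElem_map]
      simp only [if_neg g0, if_neg g1, g2]
      rw [List.getD_eq_getElem _ _ hi']
  have hov : ∀ a ∈ ls, ov' (f a) = ov a := by
    rw [← hf, List.map_map, List.map_inj_left] at hm
    intro a ha
    exact (hm a ha).symm
  have hfi : ∀ a b, (a = 0 ∨ a = 1 ∨ a ∈ ls) → (b = 0 ∨ b = 1 ∨ b ∈ ls) → f a = f b → a = b := by
    have k1 : ∀ a ∈ ls, f a ≠ 0 := by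
      intro a ha h
      apply h0'
      rw [← hf, ← h]
      exact List.mem_map_of_mem ha
    have k2 : ∀ a ∈ ls, f a ≠ 1 := by
      intro a ha h
      apply h1'
      rw [← hf, ← h]
      exact List.mem_map_of_mem ha
    intro a b ha hb hab
    rcases ha with rfl | rfl | ha <;> rcases hb with rfl | rfl | hb
    · rfl
    · rw [f0, f1] at hab
      exact absurd hab (by norm_num)
    · rw [f0] at hab
      exact absurd hab.symm (k1 _ hb)
    · rw [f0, f1] at hab
      exact absurd hab (by norm_num)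
    · rfl
    · rw [f1] at hab
      exact absurd hab.symm (k2 _ hb)
    · rw [f0] at hab
      exact absurd hab (k1 _ ha)
    · rw [f1] at hab
      exact absurd hab (k2 _ ha)
    · exact List.inj_on_of_nodup_map (f := f) (by rw [hf]; exact hn') ha hb hab
  obtain ⟨σ, hσ0, hσ1⟩ : ∃ σ : ℕ → ℕ, (∀ n, σ (2 * n) = 2 * n) ∧
      ∀ n, σ (2 * n + 1) = 2 * f n + 1 := by
    refine ⟨fun m => if m % 2 = 0 then m else 2 * f (m / 2) + 1, ?_, ?_⟩
    · intro n
      have : (2 * n) % 2 = 0 := by omega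
      simp only [this, if_true]
    · intro n
      have g1 : ¬ (2 * n + 1) % 2 = 0 := by omega
      have g2 : (2 * n + 1) / 2 = n := by omega
      simp only [g1, if_false, g2]
  have hrel : mul w (tg ls' ov') = relab σ (mul w (tg ls ov)) := by
    rw [← hf, tg_map f ov ov' ls f0 f1 e0 e1 hov]
    unfold mul relab
    rw [List.map_append, List.map_map, List.map_map, List.map_map]
    congr 1
    · refine List.map_congr_left fun x _ => ?_
      simp only [Function.comp_apply, hσ0]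
    · refine List.map_congr_left fun x _ => ?_
      simp only [Function.comp_apply, hσ1]
  have hlab : ∀ m ∈ labels (mul w (tg ls ov)),
      (∃ n, m = 2 * n) ∨ ∃ n, m = 2 * n + 1 ∧ (n = 0 ∨ n = 1 ∨ n ∈ ls) := by
    intro m hm'
    unfold labels mul at hm'
    rw [List.mem_toFinset, List.map_append, List.mem_append] at hm'
    rcases hm' with hm' | hm'
    · left
      obtain ⟨x, hx, rfl⟩ := List.mem_map.1 hm'
      obtain ⟨y, hy, rfl⟩ := List.mem_map.1 hx
      exact ⟨y.1, rfl⟩
    · right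
      obtain ⟨x, hx, rfl⟩ := List.mem_map.1 hm'
      obtain ⟨y, hy, rfl⟩ := List.mem_map.1 hx
      exact ⟨y.1, rfl, tg_lab ls ov y hy⟩
  refine H65.kn_eq (hdia ls ov hn h0 h1 he) (hdia ls' ov' hn' h0' h1' (by rw [← hl]; exact he)) ?_
  rw [hrel]
  refine Step.rename _ σ ?_
  intro m hm1 m' hm2 hmm
  have k1 := hlab m (by exact_mod_cast hm1)
  have k2 := hlab m' (by exact_mod_cast hm2)
  rcases k1 with ⟨n, rfl⟩ | ⟨n, rfl, hn1⟩ <;> rcases k2 with ⟨n', rfl⟩ | ⟨n', rfl, hn2⟩
  · rw [hσ0, hσ0] at hmm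
    exact hmm
  · rw [hσ0, hσ1] at hmm
    omega
  · rw [hσ0, hσ1] at hmm
    omega
  · rw [hσ1, hσ1] at hmm
    have := hfi n n' hn1 hn2 (by omega)
    rw [this]

end Pool.Agent.VTP.H31
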